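import Mathlib

/-!
# Burton-Keane, deterministic part: counting trifurcation blocks

`cut G S` is the graph `G` with the vertices of `S` isolated. A block `B` is a trifurcation if it is
internally connected and three distinct infinite components of `cut G B` touch it. Disjoint
trifurcation blocks inside a region are at most as many as the boundary vertices of the region.
-/

namespace Pool.Agent.H75.BK

variable {α : Type*}

/-- `G` with the vertices of `S` isolated -/
def cut (G : SimpleGraph α) (S : Set α) : SimpleGraph α where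
  Adj x y := G.Adj x y ∧ x ∉ S ∧ y ∉ S
  symm := by
    constructor
    rintro x y ⟨h, hx, hy⟩
    exact ⟨h.symm, hy, hx⟩
  loopless := by
    constructor
    rintro x ⟨h, -⟩
    exact G.loopless.irrefl x h

lemma cut_le (G : SimpleGraph α) (S : Set α) : cut G S ≤ G := fun _ _ h => h.1

lemma cut_reach (G : SimpleGraph α) {S : Set α} {x y : α} (h : (cut G S).Reachable x y) :
    G.Reachable x y := h.mono (cut_le G S)

lemma cut_anti (G : SimpleGraph α) {S T : Set α} (h : S ⊆ T) : cut G T ≤ cut G S :=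
  fun _ _ hxy => ⟨hxy.1, fun hx => hxy.2.1 (h hx), fun hy => hxy.2.2 (h hy)⟩

/-- induction along reachability, from the far end -/
lemma reach_induction {G : SimpleGraph α} {b : α} {P : α → Prop} (h0 : P b)
    (h1 : ∀ x x', G.Adj x x' → G.Reachable x' b → P x' → P x) {x : α} (h : G.Reachable x b) :
    P x := by
  obtain ⟨w⟩ := h
  induction w with
  | nil => exact h0
  | cons hab p ih => exact h1 _ _ hab ⟨p⟩ (ih h0 h1)

/-- a connected block disjoint from `T` stays connected in `cut G T` -/
lemma inner {G : SimpleGraph α} {B T : Set α} (hd : Disjoint B T)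
    (hc : ∀ a ∈ B, ∀ b ∈ B, (cut G Bᶜ).Reachable a b) {a b : α} (ha : a ∈ B) (hb : b ∈ B) :
    (cut G T).Reachable a b := by
  refine (hc a ha b hb).mono ?_
  intro x y hxy
  refine ⟨hxy.1, ?_, ?_⟩
  · intro hx
    exact hxy.2.1 (fun hB => Set.disjoint_left.1 hd hB hx)
  · intro hy
    exact hxy.2.2 (fun hB => Set.disjoint_left.1 hd hB hy)

/-- the key lemma: from `x`, if inside `cut G B` one does not meet the block `C`, then in
`cut G C` one reaches `B` -/
lemma key {G : SimpleGraph α} {B C : Set α} (hd : Disjoint B C)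
    (hc : ∀ a ∈ B, ∀ b ∈ B, (cut G Bᶜ).Reachable a b) {b x : α} (hb : b ∈ B)
    (hx : G.Reachable x b) (hn : ∀ c ∈ C, ¬ (cut G B).Reachable x c) :
    (cut G C).Reachable x b := by
  revert hn
  refine reach_induction (P := fun x => (∀ c ∈ C, ¬ (cut G B).Reachable x c) →
    (cut G C).Reachable x b) ?_ ?_ hx
  · intro _
    exact SimpleGraph.Reachable.refl _
  · intro x x' hxx' _ ih hn
    have hxC : x ∉ C := fun h => hn x h (SimpleGraph.Reachable.refl _)
    by_cases hxB : x ∈ B
    · exact inner hd hc hxB hb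
    by_cases hx'B : x' ∈ B
    · have hx'C : x' ∉ C := fun h => Set.disjoint_left.1 hd hx'B h
      have h1 : (cut G C).Adj x x' := ⟨hxx', hxC, hx'C⟩
      exact h1.reachable.trans (inner hd hc hx'B hb)
    · have h2 : (cut G B).Adj x x' := ⟨hxx', hxB, hx'B⟩
      have hn' : ∀ c ∈ C, ¬ (cut G B).Reachable x' c := fun c hc' h =>
        hn c hc' (h2.reachable.trans h)
      have hx'C : x' ∉ C := fun h => hn' x' h (SimpleGraph.Reachable.refl _)
      have h1 : (cut G C).Adj x x' := ⟨hxx', hxC, hx'C⟩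
      exact h1.reachable.trans (ih hn')

/-- trifurcation block -/
def IsTri (G : SimpleGraph α) (B : Set α) : Prop :=
  (∀ a ∈ B, ∀ b ∈ B, (cut G Bᶜ).Reachable a b) ∧
  ∃ u : Fin 3 → α, (∀ i, u i ∉ B ∧ ∃ b ∈ B, G.Adj (u i) b) ∧
    (∀ i, {y | (cut G B).Reachable (u i) y}.Infinite) ∧
    ∀ i j, i ≠ j → ¬ (cut G B).Reachable (u i) (u j)

/-- combinatorial counting lemma -/
lemma count_nat {ι : Type*} (J : Finset ι) (D : Finset ℕ) (S T : ι → Set ℕ)
    (hS : ∀ j ∈ J, (S j).Nonempty) (hT : ∀ j ∈ J, (T j).Nonempty)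
    (hSD : ∀ j ∈ J, S j ⊆ D) (hTD : ∀ j ∈ J, T j ⊆ D)
    (hdis : ∀ j ∈ J, Disjoint (S j) (T j))
    (hcomp : ∀ j ∈ J, ∀ k ∈ J, j ≠ k → Disjoint (S j ∪ T j) (S k ∪ T k) ∨ S j ∪ T j ⊆ S k ∨
      S j ∪ T j ⊆ T k ∨ S k ∪ T k ⊆ S j ∨ S k ∪ T k ⊆ T j) :
    J.card ≤ D.card := by
  classical
  let f : ι → ℕ := fun j => max (sInf (S j)) (sInf (T j))
  have hfm : ∀ j ∈ J, f j ∈ S j ∪ T j := by
    intro j hj
    rcases le_total (sInf (S j)) (sInf (T j)) with h | h
    · have : f j = sInf (T j) := max_eq_right h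
      rw [this]; exact Or.inr (Nat.sInf_mem (hT j hj))
    · have : f j = sInf (S j) := max_eq_left h
      rw [this]; exact Or.inl (Nat.sInf_mem (hS j hj))
  -- main step: `S k ∪ T k` inside `S j` (or `T j`) excludes `f j = f k`
  have main : ∀ (A B C : Set ℕ) (E : Set ℕ), A.Nonempty → B.Nonempty → Disjoint A B →
      E.Nonempty → C.Nonempty → Disjoint E C → A ∪ B ⊆ E →
      max (sInf E) (sInf C) ≠ max (sInf A) (sInf B) := by
    intro A B C E hA hB hAB hE hC hEC hsub heq
    have hAm := Nat.sInf_mem hA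
    have hBm := Nat.sInf_mem hB
    have hEm := Nat.sInf_mem hE
    have hCm := Nat.sInf_mem hC
    have hAE := Nat.sInf_le (hsub (Or.inl hAm))
    have hBE := Nat.sInf_le (hsub (Or.inr hBm))
    have hne : sInf A ≠ sInf B := fun h => Set.disjoint_left.1 hAB hAm (h ▸ hBm)
    have hmem : max (sInf A) (sInf B) ∈ E := by
      rcases le_total (sInf A) (sInf B) with h | h
      · rw [max_eq_right h]; exact hsub (Or.inr hBm)
      · rw [max_eq_left h]; exact hsub (Or.inl hAm)
    have h2 : max (sInf E) (sInf C) = sInf E := by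
      rcases le_total (sInf E) (sInf C) with h | h
      · exfalso
        rw [← heq, max_eq_right h] at hmem
        exact Set.disjoint_left.1 hEC hmem hCm
      · exact max_eq_left h
    rw [h2] at heq
    rcases lt_or_gt_of_ne hne with h | h
    · rw [max_eq_right h.le] at heq; omega
    · rw [max_eq_left h.le] at heq; omega
  refine Finset.card_le_card_of_injOn f ?_ ?_
  · intro j hj
    rcases hfm j hj with h | h
    · exact hSD j hj h
    · exact hTD j hj h
  · intro j hj k hk hjk
    by_contra hne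
    have hj' : j ∈ J := hj
    have hk' : k ∈ J := hk
    rcases hcomp j hj' k hk' hne with h | h | h | h | h
    · exact Set.disjoint_left.1 h (hfm j hj') (by
        have := hfm k hk'
        rw [← hjk] at this; exact this)
    · exact main _ _ _ _ (hS j hj') (hT j hj') (hdis j hj') (hS k hk') (hT k hk') (hdis k hk') h
        hjk.symm
    · refine main _ _ (S k) _ (hS j hj') (hT j hj') (hdis j hj') (hT k hk') (hS k hk')
        (hdis k hk').symm h ?_
      rw [max_comm]; exact hjk.symm
    · exact main _ _ _ _ (hS k hk') (hT k hk') (hdis k hk') (hS j hj') (hT j hj') (hdis j hj') h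
        hjk
    · refine main _ _ (S j) _ (hS k hk') (hT k hk') (hdis k hk') (hT j hj') (hS j hj')
        (hdis j hj').symm h ?_
      rw [max_comm]; exact hjk

/-- disjoint trifurcation blocks are at most as many as the boundary vertices: here every
infinite component of `cut G (B j)` attached to `B j` meets `D`, and `far` provides vertices outside
all blocks in every infinite component of `G` -/
theorem tri_count {ι : Type*} (G : SimpleGraph α) (J : Finset ι) (B : ι → Set α)
    (D : Finset α)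
    (htri : ∀ j ∈ J, IsTri G (B j))
    (hdisj : ∀ j ∈ J, ∀ k ∈ J, j ≠ k → Disjoint (B j) (B k))
    (hbd : ∀ j ∈ J, ∀ u, u ∉ B j → (∃ b ∈ B j, G.Adj u b) →
      {y | (cut G (B j)).Reachable u y}.Infinite → ∃ y ∈ D, (cut G (B j)).Reachable u y) :
    J.card ≤ D.card := by
  classical
  -- the points
  have hb : ∀ j : J, ∃ b, b ∈ B j.1 := fun j => by
    obtain ⟨-, u, hu, -⟩ := htri j.1 j.2
    obtain ⟨-, b, hb, -⟩ := hu 0
    exact ⟨b, hb⟩
  choose b hb using hb
  have hcon : ∀ j : J, ∀ a ∈ B j.1, ∀ b ∈ B j.1, (cut G (B j.1)ᶜ).Reachable a b :=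
    fun j => (htri j.1 j.2).1
  have hu0 : ∀ j : J, ∃ u : Fin 3 → α, (∀ i, u i ∉ B j.1 ∧ ∃ b ∈ B j.1, G.Adj (u i) b) ∧
    (∀ i, {y | (cut G (B j.1)).Reachable (u i) y}.Infinite) ∧
    ∀ i j', i ≠ j' → ¬ (cut G (B j.1)).Reachable (u i) (u j') := fun j => (htri j.1 j.2).2
  choose u hu hinf hsep using hu0
  -- arms are connected to the block in `G`
  have harm : ∀ j : J, ∀ i, G.Reachable (u j i) (b j) := by
    intro j i
    obtain ⟨-, b', hb', hadj⟩ := hu j i
    exact hadj.reachable.trans (cut_reach G (hcon j b' hb' (b j) (hb j)))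
  -- the root of every component: the smallest boundary vertex for some order; any choice works
  let r : G.ConnectedComponent → Option α := fun c =>
    if h : ∃ x, x ∈ D ∧ G.connectedComponentMk x = c then some h.choose else none
  have hr : ∀ j : J, ∃ x, r (G.connectedComponentMk (b j)) = some x ∧ G.Reachable x (b j) := by
    intro j
    obtain ⟨y, hyD, hy⟩ := hbd j.1 j.2 (u j 0) (hu j 0).1 (hu j 0).2 (hinf j 0)
    have h : ∃ x, x ∈ D ∧ G.connectedComponentMk x = G.connectedComponentMk (b j) :=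
      ⟨y, hyD, SimpleGraph.ConnectedComponent.sound ((cut_reach G hy).symm.trans (harm j 0))⟩
    refine ⟨h.choose, ?_, ?_⟩
    · simp only [r]; rw [dif_pos h]
    · exact SimpleGraph.ConnectedComponent.exact h.choose_spec.2
  choose ro hro hroR using hr
  -- two arms avoiding the root
  have hpq : ∀ j : J, ∃ p q : Fin 3, p ≠ q ∧ ¬ (cut G (B j.1)).Reachable (u j p) (ro j) ∧
      ¬ (cut G (B j.1)).Reachable (u j q) (ro j) := by
    intro j
    have hno : ∀ p q : Fin 3, p ≠ q → (cut G (B j.1)).Reachable (u j p) (ro j) →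
        ¬ (cut G (B j.1)).Reachable (u j q) (ro j) := fun p q hpq h1 h2 =>
      hsep j p q hpq (h1.trans h2.symm)
    by_cases h0 : (cut G (B j.1)).Reachable (u j 0) (ro j)
    · exact ⟨1, 2, by decide, hno 0 1 (by decide) h0, hno 0 2 (by decide) h0⟩
    · by_cases h1 : (cut G (B j.1)).Reachable (u j 1) (ro j)
      · exact ⟨0, 2, by decide, h0, hno 1 2 (by decide) h1⟩
      · exact ⟨0, 1, by decide, h0, h1⟩
  choose p q hpq hp hq using hpq
  -- traces
  let A : J → α → Set α := fun j v => {y | y ∈ D ∧ (cut G (B j.1)).Reachable v y}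
  have hne : ∀ j : J, ∀ i, (A j (u j i)).Nonempty := by
    intro j i
    obtain ⟨y, hyD, hy⟩ := hbd j.1 j.2 (u j i) (hu j i).1 (hu j i).2 (hinf j i)
    exact ⟨y, hyD, hy⟩
  -- elements of the two non-root arms
  have hAG : ∀ j : J, ∀ y, y ∈ A j (u j (p j)) ∪ A j (u j (q j)) → G.Reachable y (b j) ∧
      ¬ (cut G (B j.1)).Reachable y (ro j) := by
    intro j y hy
    rcases hy with hy | hy
    · exact ⟨(cut_reach G hy.2).symm.trans (harm j _), fun h => hp j (hy.2.trans h)⟩
    · exact ⟨(cut_reach G hy.2).symm.trans (harm j _), fun h => hq j (hy.2.trans h)⟩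
  -- the block `k` seen from `cut G (B j)`: reaching one vertex of the block is reaching all
  have hblk : ∀ j k : J, j ≠ k → ∀ x, ¬ (cut G (B j.1)).Reachable x (b k) →
      ∀ c ∈ B k.1, ¬ (cut G (B j.1)).Reachable x c := by
    intro j k hjk x hx c hc h
    refine hx (h.trans ?_)
    exact inner (hdisj k.1 k.2 j.1 j.2 (fun h => hjk (Subtype.ext h.symm))) (hcon k) hc (hb k)
  have hkey : ∀ j k : J, j ≠ k → ∀ x, G.Reachable x (b j) →
      ¬ (cut G (B j.1)).Reachable x (b k) → (cut G (B k.1)).Reachable x (b j) := by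
    intro j k hjk x hx hn
    exact key (hdisj j.1 j.2 k.1 k.2 (fun h => hjk (Subtype.ext h))) (hcon j) (hb j) hx
      (hblk j k hjk x hn)
  -- case A
  have caseA : ∀ j k : J, j ≠ k → ro j = ro k → ¬ (cut G (B j.1)).Reachable (ro j) (b k) →
      Disjoint (A j (u j (p j)) ∪ A j (u j (q j))) (A k (u k (p k)) ∪ A k (u k (q k))) ∨
      A k (u k (p k)) ∪ A k (u k (q k)) ⊆ A j (u j (p j)) ∨
      A k (u k (p k)) ∪ A k (u k (q k)) ⊆ A j (u j (q j)) := by
    intro j k hjk hrr hn
    have h1 : (cut G (B k.1)).Reachable (ro j) (b j) := hkey j k hjk _ (hroR j) hn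
    have h2 : ∀ y, y ∈ A k (u k (p k)) ∪ A k (u k (q k)) →
        (cut G (B j.1)).Reachable y (b k) := by
      intro y hy
      obtain ⟨hy1, hy2⟩ := hAG k y hy
      refine hkey k j (Ne.symm hjk) y hy1 ?_
      intro h
      exact hy2 (hrr ▸ (h.trans h1.symm))
    have hD : ∀ y, y ∈ A k (u k (p k)) ∪ A k (u k (q k)) → y ∈ D := by
      intro y hy
      rcases hy with hy | hy
      · exact hy.1
      · exact hy.1
    by_cases c1 : (cut G (B j.1)).Reachable (u j (p j)) (b k)
    · right; left
      intro y hy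
      exact ⟨hD y hy, c1.trans (h2 y hy).symm⟩
    by_cases c2 : (cut G (B j.1)).Reachable (u j (q j)) (b k)
    · right; right
      intro y hy
      exact ⟨hD y hy, c2.trans (h2 y hy).symm⟩
    · left
      rw [Set.disjoint_left]
      intro y hy1 hy2
      rcases hy1 with hy1 | hy1
      · exact c1 (hy1.2.trans (h2 y hy2))
      · exact c2 (hy1.2.trans (h2 y hy2))
  -- compatibility
  have hcomp : ∀ j k : J, j ≠ k →
      Disjoint (A j (u j (p j)) ∪ A j (u j (q j))) (A k (u k (p k)) ∪ A k (u k (q k))) ∨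
      A j (u j (p j)) ∪ A j (u j (q j)) ⊆ A k (u k (p k)) ∨
      A j (u j (p j)) ∪ A j (u j (q j)) ⊆ A k (u k (q k)) ∨
      A k (u k (p k)) ∪ A k (u k (q k)) ⊆ A j (u j (p j)) ∨
      A k (u k (p k)) ∪ A k (u k (q k)) ⊆ A j (u j (q j)) := by
    intro j k hjk
    by_cases hG : G.Reachable (b j) (b k)
    · have hrr : ro j = ro k := by
        have h1 := hro j
        have h2 := hro k
        rw [SimpleGraph.ConnectedComponent.sound hG, h2] at h1
        exact (Option.some_injective _ h1).symm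
      by_cases a1 : (cut G (B j.1)).Reachable (ro j) (b k)
      · by_cases a2 : (cut G (B k.1)).Reachable (ro k) (b j)
        · left
          rw [Set.disjoint_left]
          intro y hy1 hy2
          obtain ⟨g1, n1⟩ := hAG j y hy1
          obtain ⟨g2, n2⟩ := hAG k y hy2
          have h3 : ¬ (cut G (B j.1)).Reachable y (b k) := fun h => n1 (h.trans a1.symm)
          have h4 := hkey j k hjk y g1 h3
          exact n2 (h4.trans a2.symm)
        · rcases caseA k j (Ne.symm hjk) hrr.symm a2 with h | h | h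
          · exact Or.inl h.symm
          · exact Or.inr (Or.inl h)
          · exact Or.inr (Or.inr (Or.inl h))
      · rcases caseA j k hjk hrr a1 with h | h | h
        · exact Or.inl h
        · exact Or.inr (Or.inr (Or.inr (Or.inl h)))
        · exact Or.inr (Or.inr (Or.inr (Or.inr h)))
    · left
      rw [Set.disjoint_left]
      intro y hy1 hy2
      exact hG ((hAG j y hy1).1.symm.trans (hAG k y hy2).1)
  -- transfer to natural numbers
  let e := D.equivFin
  let F : Set α → Set ℕ := fun X => {n | ∃ y : D, y.1 ∈ X ∧ ((e y : Fin D.card) : ℕ) = n}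
  have hFsub : ∀ X Y : Set α, X ⊆ Y → F X ⊆ F Y := by
    rintro X Y h n ⟨y, hy, rfl⟩
    exact ⟨y, h hy, rfl⟩
  have hFun : ∀ X Y : Set α, F (X ∪ Y) = F X ∪ F Y := by
    intro X Y
    ext n
    constructor
    · rintro ⟨y, hy | hy, rfl⟩
      · exact Or.inl ⟨y, hy, rfl⟩
      · exact Or.inr ⟨y, hy, rfl⟩
    · rintro (⟨y, hy, rfl⟩ | ⟨y, hy, rfl⟩)
      · exact ⟨y, Or.inl hy, rfl⟩
      · exact ⟨y, Or.inr hy, rfl⟩
  have hFdis : ∀ X Y : Set α, Disjoint X Y → Disjoint (F X) (F Y) := by
    intro X Y h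
    rw [Set.disjoint_left]
    rintro n ⟨y, hy, rfl⟩ ⟨z, hz, hzy⟩
    have : z = y := e.injective (Fin.ext hzy)
    rw [this] at hz
    exact Set.disjoint_left.1 h hy hz
  have hFD : ∀ X : Set α, F X ⊆ (Finset.range D.card : Set ℕ) := by
    rintro X n ⟨y, hy, rfl⟩
    simp
  have hFne : ∀ X : Set α, X.Nonempty → X ⊆ D → (F X).Nonempty := by
    rintro X ⟨y, hy⟩ h
    exact ⟨_, ⟨⟨y, h hy⟩, hy, rfl⟩⟩
  have hAD : ∀ (j : J) (v : α), A j v ⊆ D := fun j v y hy => hy.1
  have hmain := count_nat (ι := J) Finset.univ (Finset.range D.card)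
    (fun j => F (A j (u j (p j)))) (fun j => F (A j (u j (q j))))
    (fun j _ => hFne _ (hne j _) (hAD j _)) (fun j _ => hFne _ (hne j _) (hAD j _))
    (fun j _ => hFD _) (fun j _ => hFD _)
    (fun j _ => by
      refine hFdis _ _ ?_
      rw [Set.disjoint_left]
      intro y hy1 hy2
      exact hsep j _ _ (hpq j) (hy1.2.trans hy2.2.symm))
    (fun j _ k _ hjk => by
      rw [← hFun, ← hFun]
      rcases hcomp j k hjk with h | h | h | h | h
      · exact Or.inl (hFdis _ _ h)
      · exact Or.inr (Or.inl (hFsub _ _ h))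
      · exact Or.inr (Or.inr (Or.inl (hFsub _ _ h)))
      · exact Or.inr (Or.inr (Or.inr (Or.inl (hFsub _ _ h))))
      · exact Or.inr (Or.inr (Or.inr (Or.inr (hFsub _ _ h)))))
  simpa using hmain

end Pool.Agent.H75.BK
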