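import Pool.Agent.H47.GM.Basic
import Pool.Agent.H75.BK.Cut

/-!
# Burton-Keane, geometry of the lattice
-/

open MeasureTheory Filter Topology
open Pool.Agent.H17.IIC Pool.Agent.H41.QC Pool.Agent.H47.GM

namespace Pool.Agent.H75.BK

variable {d : ℕ}

lemma Bx_mono {c : V d} {m n : ℕ} (h : m ≤ n) : Bx c m ⊆ Bx c n := by
  intro y hy
  rw [mem_Bx] at hy ⊢
  intro i
  exact (hy i).trans (by exact_mod_cast h)

lemma Bx_succ_of_adj {c x y : V d} {n : ℕ} (hx : x ∈ Bx c n) (h : LatAdj x y) :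
    y ∈ Bx c (n + 1) := by
  rw [mem_Bx] at hx ⊢
  intro i
  have h1 := LatAdj.abs_le h i
  have h2 := hx i
  have h3 : y i - c i = (x i - c i) - (x i - y i) := by ring
  rw [h3]
  push_cast
  exact (abs_sub _ _).trans (by linarith)

/-- a walk leaving a box crosses its outer boundary -/
lemma cross {H : SimpleGraph (V d)} (hH : ∀ x y, H.Adj x y → LatAdj x y) {c : V d} {n : ℕ}
    {x y : V d} (h : H.Reachable x y) (hx : x ∈ Bx c n) (hy : y ∉ Bx c n) :
    ∃ z, z ∉ Bx c n ∧ z ∈ Bx c (n + 1) ∧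
      (cut H ((Bx c (n + 1) : Finset (V d)) : Set (V d))ᶜ).Reachable x z := by
  revert hx
  refine reach_induction (P := fun x => x ∈ Bx c n → ∃ z, z ∉ Bx c n ∧ z ∈ Bx c (n + 1) ∧
      (cut H ((Bx c (n + 1) : Finset (V d)) : Set (V d))ᶜ).Reachable x z) ?_ ?_ h
  · intro h; exact absurd h hy
  · intro x x' hxx' _ ih hx
    have hx1 : x ∈ Bx c (n + 1) := Bx_mono (Nat.le_succ n) hx
    have hx'1 : x' ∈ Bx c (n + 1) := Bx_succ_of_adj hx (hH _ _ hxx')
    have hadj : (cut H ((Bx c (n + 1) : Finset (V d)) : Set (V d))ᶜ).Adj x x' :=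
      ⟨hxx', fun h => h (by exact_mod_cast hx1), fun h => h (by exact_mod_cast hx'1)⟩
    by_cases hx' : x' ∈ Bx c n
    · obtain ⟨z, h1, h2, h3⟩ := ih hx'
      exact ⟨z, h1, h2, hadj.reachable.trans h3⟩
    · exact ⟨x', hx', hx'1, hadj.reachable⟩

lemma exists_Bx (x : V d) : ∃ n, x ∈ Bx (0 : V d) n := by
  refine ⟨∑ i, (x i).natAbs, ?_⟩
  rw [mem_Bx]
  intro i
  have h1 : (x i).natAbs ≤ ∑ i, (x i).natAbs :=
    Finset.single_le_sum (f := fun i => (x i).natAbs) (fun _ _ => Nat.zero_le _)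
      (Finset.mem_univ i)
  simp only [Pi.zero_apply, sub_zero, Int.abs_eq_natAbs]
  exact_mod_cast h1

/-- a reachable vertex is reachable inside a large box -/
lemma reach_local {H : SimpleGraph (V d)} {x y : V d} (h : H.Reachable x y) :
    ∃ n₀, ∀ n ≥ n₀, (cut H ((Bx (0 : V d) n : Finset (V d)) : Set (V d))ᶜ).Reachable x y := by
  refine reach_induction (P := fun x => ∃ n₀, ∀ n ≥ n₀,
    (cut H ((Bx (0 : V d) n : Finset (V d)) : Set (V d))ᶜ).Reachable x y) ?_ ?_ h
  · exact ⟨0, fun n _ => SimpleGraph.Reachable.refl _⟩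
  · rintro x x' hxx' _ ⟨n₀, ih⟩
    obtain ⟨a, ha⟩ := exists_Bx x
    obtain ⟨b, hb⟩ := exists_Bx x'
    refine ⟨n₀ + a + b, fun n hn => ?_⟩
    have h1 : x ∈ Bx (0 : V d) n := Bx_mono (by omega) ha
    have h2 : x' ∈ Bx (0 : V d) n := Bx_mono (by omega) hb
    have hadj : (cut H ((Bx (0 : V d) n : Finset (V d)) : Set (V d))ᶜ).Adj x x' :=
      ⟨hxx', fun h => h (by exact_mod_cast h1), fun h => h (by exact_mod_cast h2)⟩
    exact hadj.reachable.trans (ih n (by omega))

lemma infinite_of_exits {C : Set (V d)} (h : ∀ n, ∃ y, y ∉ Bx (0 : V d) n ∧ y ∈ C) :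
    C.Infinite := by
  intro hfin
  have hB : ∃ B : ℕ, ∀ y ∈ C, y ∈ Bx (0 : V d) B := by
    have : ∀ y : V d, ∃ n, y ∈ Bx (0 : V d) n := exists_Bx
    choose f hf using this
    refine ⟨∑ y ∈ hfin.toFinset, f y, fun y hy => Bx_mono ?_ (hf y)⟩
    exact Finset.single_le_sum (f := fun y => f y) (fun _ _ => Nat.zero_le _)
      (hfin.mem_toFinset.2 hy)
  obtain ⟨B, hB⟩ := hB
  obtain ⟨y, hy, hyC⟩ := h B
  exact hy (hB y hyC)

/-- from outside a block one reaches a vertex attached to the block -/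
lemma attached {α : Type*} {G : SimpleGraph α} {B : Set α} {x b : α} (hb : b ∈ B) (hx : x ∉ B)
    (h : G.Reachable x b) :
    ∃ u, (cut G B).Reachable x u ∧ u ∉ B ∧ ∃ b' ∈ B, G.Adj u b' := by
  revert hx
  refine reach_induction (P := fun x => x ∉ B → ∃ u, (cut G B).Reachable x u ∧ u ∉ B ∧
    ∃ b' ∈ B, G.Adj u b') ?_ ?_ h
  · intro h; exact absurd hb h
  · intro x x' hxx' _ ih hx
    by_cases hx' : x' ∈ B
    · exact ⟨x, SimpleGraph.Reachable.refl _, hx, x', hx', hxx'⟩
    · obtain ⟨u, h1, h2⟩ := ih hx'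
      have hadj : (cut G B).Adj x x' := ⟨hxx', hx, hx'⟩
      exact ⟨u, hadj.reachable.trans h1, h2⟩

/-- an infinite cluster touching a finite block has an infinite arm attached to the block -/
lemma arm {G : SimpleGraph (V d)} (hG : ∀ x y, G.Adj x y → LatAdj x y) (B : Finset (V d))
    {x : V d} (hx : x ∈ B) (hinf : {y | G.Reachable x y}.Infinite) :
    ∃ u, u ∉ B ∧ (∃ b ∈ B, G.Adj u b) ∧ G.Reachable x u ∧
      {y | (cut G (B : Set (V d))).Reachable u y}.Infinite := by
  classical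
  by_contra hno
  push Not at hno
  apply hinf
  have hsub : {y | G.Reachable x y} ⊆ (B : Set (V d)) ∪
      ⋃ u ∈ ((B.biUnion nb).filter fun u => u ∉ B ∧ (∃ b ∈ B, G.Adj u b) ∧ G.Reachable x u),
        {y | (cut G (B : Set (V d))).Reachable u y} := by
    intro y hy
    by_cases hyB : y ∈ B
    · exact Or.inl hyB
    · right
      obtain ⟨u, h1, h2, b', hb', hadj⟩ :=
        attached (G := G) (B := (B : Set (V d))) (x := y) (b := x) hx hyB hy.symm
      simp only [Set.mem_iUnion]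
      refine ⟨u, ?_, h1.symm⟩
      rw [Finset.mem_filter, Finset.mem_biUnion]
      exact ⟨⟨b', hb', mem_nb.2 (LatAdj.symm (hG _ _ hadj))⟩, h2, ⟨b', hb', hadj⟩,
        hy.trans (cut_reach G h1)⟩
  refine Set.Finite.subset ?_ hsub
  refine (Finset.finite_toSet B).union (Set.Finite.biUnion (Finset.finite_toSet _) ?_)
  intro u hu
  rw [Finset.mem_coe, Finset.mem_filter] at hu
  obtain ⟨-, h1, h2, h3⟩ := hu
  exact hno u h1 h2 h3

/-- the elements with both ends in `B` -/
def ins (B : Finset (V d)) : Finset (El d) := (B ×ˢ B).image fun q => s(q.1, q.2)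

lemma mem_ins {B : Finset (V d)} {a b : V d} : s(a, b) ∈ ins B ↔ a ∈ B ∧ b ∈ B := by
  unfold ins
  rw [Finset.mem_image]
  constructor
  · rintro ⟨⟨x, y⟩, hxy, h⟩
    rw [Finset.mem_product] at hxy
    rcases Sym2.eq_iff.1 h with ⟨h1, h2⟩ | ⟨h1, h2⟩
    · rw [← h1, ← h2]; exact hxy
    · rw [← h1, ← h2]; exact hxy.symm
  · rintro ⟨ha, hb⟩
    exact ⟨(a, b), Finset.mem_product.2 ⟨ha, hb⟩, rfl⟩

lemma gr_lat (κ : Kind) (ω : El d → Bool) : ∀ x y, (Gr κ ω).Adj x y → LatAdj x y :=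
  fun _ _ h => h.1

/-- the graph restricted to `B` depends only on the elements inside `B` -/
lemma cut_congr (κ : Kind) {ω ω' : El d → Bool} (B : Finset (V d))
    (h : ∀ e ∈ ins B, ω e = ω' e) :
    cut (Gr κ ω) (B : Set (V d))ᶜ = cut (Gr κ ω') (B : Set (V d))ᶜ := by
  have key : ∀ ω ω' : El d → Bool, (∀ e ∈ ins B, ω e = ω' e) → ∀ x y,
      (cut (Gr κ ω) (B : Set (V d))ᶜ).Adj x y → (cut (Gr κ ω') (B : Set (V d))ᶜ).Adj x y := by
    rintro ω ω' h x y ⟨⟨hl, ho⟩, hx, hy⟩
    have hxB : x ∈ B := by simpa using hx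
    have hyB : y ∈ B := by simpa using hy
    refine ⟨⟨hl, ?_⟩, hx, hy⟩
    cases κ with
    | bond =>
      show ω' s(x, y) = true
      rw [← h _ (mem_ins.2 ⟨hxB, hyB⟩)]; exact ho
    | site =>
      refine ⟨?_, ?_⟩
      · rw [← h _ (mem_ins.2 ⟨hxB, hxB⟩)]; exact ho.1
      · rw [← h _ (mem_ins.2 ⟨hyB, hyB⟩)]; exact ho.2
  ext x y
  exact ⟨key ω ω' h x y, key ω' ω (fun e he => (h e he).symm) x y⟩

/-- opening everything inside `B` does not change the graph outside `B` -/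
lemma cut_open (κ : Kind) {ω ω' : El d → Bool} (B : Finset (V d))
    (h : ∀ e, e ∉ ins B → ω e = ω' e) :
    cut (Gr κ ω) (B : Set (V d)) = cut (Gr κ ω') (B : Set (V d)) := by
  have key : ∀ ω ω' : El d → Bool, (∀ e, e ∉ ins B → ω e = ω' e) → ∀ x y,
      (cut (Gr κ ω) (B : Set (V d))).Adj x y → (cut (Gr κ ω') (B : Set (V d))).Adj x y := by
    rintro ω ω' h x y ⟨⟨hl, ho⟩, hx, hy⟩
    refine ⟨⟨hl, ?_⟩, hx, hy⟩
    cases κ with
    | bond =>
      show ω' s(x, y) = true
      rw [← h _ (fun he => hx (mem_ins.1 he).1)]; exact ho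
    | site =>
      refine ⟨?_, ?_⟩
      · rw [← h _ (fun he => hx (mem_ins.1 he).1)]; exact ho.1
      · rw [← h _ (fun he => hy (mem_ins.1 he).1)]; exact ho.2
  ext x y
  exact ⟨key ω ω' h x y, key ω' ω (fun e he => (h e he).symm) x y⟩

lemma gr_mono (κ : Kind) {ω ω' : El d → Bool} (h : ∀ e, ω e = true → ω' e = true) :
    Gr κ ω ≤ Gr κ ω' := by
  intro x y hxy
  cases κ
  · exact ⟨hxy.1, h _ hxy.2⟩
  · exact ⟨hxy.1, h _ hxy.2.1, h _ hxy.2.2⟩

/-- a fully open box is internally connected -/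
lemma box_conn (κ : Kind) {ω : El d → Bool} {c : V d} {m : ℕ}
    (h : ∀ e ∈ ins (Bx c m), ω e = true) {u v : V d} (hu : u ∈ Bx c m) (hv : v ∈ Bx c m) :
    (cut (Gr κ ω) ((Bx c m : Finset (V d)) : Set (V d))ᶜ).Reachable u v := by
  have hF : FullOpen κ ω (Bx c m : Set (V d)) := by
    refine ⟨?_, fun _ a ha => h _ (mem_ins.2 ⟨ha, ha⟩)⟩
    intro a ha b hb _
    cases κ with
    | bond => exact h _ (mem_ins.2 ⟨ha, hb⟩)
    | site => exact h _ (mem_ins.2 ⟨hb, hb⟩)
  have hr := rch_box hF hu hv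
  have gen : ∀ a b, Rch κ ω (Bx c m : Set (V d)) a b → a ∈ Bx c m →
      (cut (Gr κ ω) ((Bx c m : Finset (V d)) : Set (V d))ᶜ).Reachable a b := by
    intro a b hab
    induction hab using Relation.ReflTransGen.head_induction_on with
    | refl => intro _; exact SimpleGraph.Reachable.refl _
    | @head a a' h1 _ ih =>
      intro ha
      obtain ⟨hl, ha', ho⟩ := h1
      have ha'' : a' ∈ Bx c m := ha'
      have hadj : (cut (Gr κ ω) ((Bx c m : Finset (V d)) : Set (V d))ᶜ).Adj a a' := by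
        refine ⟨⟨hl, ?_⟩, fun h => h ha, fun h => h ha'⟩
        cases κ with
        | bond => exact ho
        | site => exact ⟨h _ (mem_ins.2 ⟨ha, ha⟩), ho⟩
      exact hadj.reachable.trans (ih ha'')
  exact gen u v hr hu

/-- the modified configuration has a trifurcation -/
lemma tri_of_three (κ : Kind) {ω ω' : El d → Bool} {c : V d} {m : ℕ} (x : Fin 3 → V d)
    (hx : ∀ i, x i ∈ Bx c m)
    (hinf : ∀ i, {y | (Gr κ ω).Reachable (x i) y}.Infinite)
    (hsep : ∀ i j, i ≠ j → ¬ (Gr κ ω).Reachable (x i) (x j))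
    (hoff : ∀ e, e ∉ ins (Bx c m) → ω e = ω' e)
    (hon : ∀ e ∈ ins (Bx c m), ω' e = true) :
    IsTri (Gr κ ω') ((Bx c m : Finset (V d)) : Set (V d)) := by
  have hle : Gr κ ω ≤ Gr κ ω' := by
    apply gr_mono
    intro e he
    by_cases h : e ∈ ins (Bx c m)
    · exact hon e h
    · rw [← hoff e h]; exact he
  have hcut : cut (Gr κ ω) ((Bx c m : Finset (V d)) : Set (V d)) =
      cut (Gr κ ω') ((Bx c m : Finset (V d)) : Set (V d)) := cut_open κ (Bx c m) hoff
  have harm := fun i => arm (gr_lat κ ω) (Bx c m) (hx i) (hinf i)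
  choose u hu1 hu2 hu3 hu4 using harm
  refine ⟨fun a ha b hb => box_conn κ hon ha hb, u, ?_, ?_, ?_⟩
  · intro i
    obtain ⟨b, hb, hadj⟩ := hu2 i
    exact ⟨hu1 i, b, hb, hle hadj⟩
  · intro i
    rw [← hcut]; exact hu4 i
  · intro i j hij h
    rw [← hcut] at h
    exact hsep i j hij (((hu3 i).trans (cut_reach _ h)).trans (hu3 j).symm)

/-- translation -/
lemma gr_shift_reach (κ : Kind) (v : V d) (ω : El d → Bool) (S : Set (V d)) {a b : V d}
    (h : (cut (Gr κ (fun e : El d => ω (e.map (fun x => x + v)))) S).Reachable a b) :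
    (cut (Gr κ ω) {y | y - v ∈ S}).Reachable (a + v) (b + v) := by
  obtain ⟨w⟩ := h
  induction w with
  | nil => exact SimpleGraph.Reachable.refl _
  | @cons a b c hadj p ih =>
    have h3 : (cut (Gr κ ω) {y | y - v ∈ S}).Adj (a + v) (b + v) := by
      obtain ⟨⟨⟨s, hs⟩, ho⟩, ha, hb⟩ := hadj
      refine ⟨⟨⟨s, by rw [hs]; abel⟩, ?_⟩, ?_, ?_⟩
      · cases κ with
        | bond => exact ho
        | site => exact ho
      · intro h; apply ha; simpa using h
      · intro h; apply hb; simpa using h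
    exact h3.reachable.trans ih

lemma gr_shift_reach' (κ : Kind) (v : V d) (ω : El d → Bool) (S : Set (V d)) {a b : V d}
    (h : (cut (Gr κ ω) {y | y - v ∈ S}).Reachable a b) :
    (cut (Gr κ (fun e : El d => ω (e.map (fun x => x + v)))) S).Reachable (a - v) (b - v) := by
  obtain ⟨w⟩ := h
  induction w with
  | nil => exact SimpleGraph.Reachable.refl _
  | @cons a b c hadj p ih =>
    have h3 : (cut (Gr κ (fun e : El d => ω (e.map (fun x => x + v)))) S).Adj (a - v) (b - v) := by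
      obtain ⟨⟨⟨s, hs⟩, ho⟩, ha, hb⟩ := hadj
      refine ⟨⟨⟨s, by rw [hs]; abel⟩, ?_⟩, ha, hb⟩
      · cases κ with
        | bond =>
          show ω ((s(a - v, b - v) : El d).map (fun x => x + v)) = true
          rw [Sym2.map_mk]
          simpa using ho
        | site =>
          refine ⟨?_, ?_⟩
          · show ω ((s(a - v, a - v) : El d).map (fun x => x + v)) = true
            rw [Sym2.map_mk]
            simpa using ho.1
          · show ω ((s(b - v, b - v) : El d).map (fun x => x + v)) = true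
            rw [Sym2.map_mk]
            simpa using ho.2
    exact h3.reachable.trans ih

lemma gr_shift_adj (κ : Kind) (v : V d) (ω : El d → Bool) {a b : V d}
    (h : (Gr κ (fun e : El d => ω (e.map (fun x => x + v)))).Adj a b) :
    (Gr κ ω).Adj (a + v) (b + v) := by
  obtain ⟨⟨s, hs⟩, ho⟩ := h
  refine ⟨⟨s, by rw [hs]; abel⟩, ?_⟩
  cases κ with
  | bond => exact ho
  | site => exact ho

lemma Bx_shift (c v : V d) (m : ℕ) :
    {y : V d | y - v ∈ ((Bx c m : Finset (V d)) : Set (V d))} =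
      ((Bx (c + v) m : Finset (V d)) : Set (V d)) := by
  ext y
  rw [Set.mem_ofPred_eq, Finset.mem_coe, Finset.mem_coe, mem_Bx, mem_Bx]
  refine forall_congr' fun i => ?_
  have : (y - v) i - c i = y i - (c + v) i := by
    simp only [Pi.sub_apply, Pi.add_apply]; ring
  rw [this]

lemma tri_shift (κ : Kind) (v : V d) (ω : El d → Bool) (m : ℕ)
    (h : IsTri (Gr κ (fun e : El d => ω (e.map (fun x => x + v))))
      ((Bx (0 : V d) m : Finset (V d)) : Set (V d))) :
    IsTri (Gr κ ω) ((Bx v m : Finset (V d)) : Set (V d)) := by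
  obtain ⟨h1, u, h2, h3, h4⟩ := h
  have hB := Bx_shift (0 : V d) v m
  rw [zero_add] at hB
  have hmem : ∀ y : V d, y ∈ Bx v m ↔ y - v ∈ Bx (0 : V d) m := by
    intro y
    have := Set.ext_iff.1 hB y
    exact this.symm
  refine ⟨?_, fun i => u i + v, ?_, ?_, ?_⟩
  · intro a ha b hb
    have ha' : a - v ∈ Bx (0 : V d) m := (hmem a).1 ha
    have hb' : b - v ∈ Bx (0 : V d) m := (hmem b).1 hb
    have := gr_shift_reach κ v ω _ (h1 (a - v) ha' (b - v) hb')
    rw [sub_add_cancel, sub_add_cancel] at this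
    have hc : {y : V d | y - v ∈ (((Bx (0 : V d) m : Finset (V d)) : Set (V d)))ᶜ} =
        (((Bx v m : Finset (V d)) : Set (V d)))ᶜ := by
      rw [← hB]; rfl
    rwa [hc] at this
  · intro i
    obtain ⟨hi, b, hb, hadj⟩ := h2 i
    refine ⟨?_, b + v, ?_, gr_shift_adj κ v ω hadj⟩
    · intro h
      apply hi
      have := (hmem _).1 h
      rwa [add_sub_cancel_right] at this
    · show b + v ∈ Bx v m
      rw [hmem, add_sub_cancel_right]; exact hb
  · intro i
    have hinj : Function.Injective (fun x : V d => x + v) := fun a b hab => by simpa using hab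
    refine ((h3 i).image (f := fun x : V d => x + v) hinj.injOn).mono ?_
    rintro _ ⟨y, hy, rfl⟩
    have := gr_shift_reach κ v ω _ hy
    rwa [hB] at this
  · intro i j hij h
    rw [← hB] at h
    have := gr_shift_reach' κ v ω _ h
    rw [add_sub_cancel_right, add_sub_cancel_right] at this
    exact h4 i j hij this

end Pool.Agent.H75.BK
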