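import Pool.Agent.H47.GM.SeedInf
import Pool.Agent.H75.BK.Geo

/-!
# Burton-Keane: uniqueness of the infinite cluster

`uniq`: for bond and site percolation on `ℤ^d`, every `d` and every `p`, almost surely any two
vertices whose open clusters are infinite are connected.
-/

open MeasureTheory Filter Topology
open Pool.Agent.H17.IIC Pool.Agent.H41.QC Pool.Agent.H47.GM

namespace Pool.Agent.H75.BK

variable {d : ℕ}

/-! ### finite modification -/

section Mod

variable {ι : Type*}

/-- configurations that agree off `F` with a configuration of `E` -/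
def offE (F : Finset ι) (E : Set (ι → Bool)) : Set (ι → Bool) :=
  {ω | ∃ ω₁ ∈ E, ∀ e, e ∉ F → ω₁ e = ω e}

open Classical in
lemma offE_eq (F : Finset ι) (E : Set (ι → Bool)) :
    offE F E = ⋃ s ∈ F.powerset, {ω : ι → Bool | (fun e => if e ∈ F then decide (e ∈ s) else ω e) ∈ E} := by
  ext ω
  simp only [offE, Set.mem_ofPred_eq, Set.mem_iUnion, Finset.mem_powerset, exists_prop]
  constructor
  · rintro ⟨ω₁, h1, h2⟩
    refine ⟨F.filter fun e => ω₁ e = true, Finset.filter_subset _ _, ?_⟩
    have : (fun e => if e ∈ F then decide (e ∈ F.filter fun e => ω₁ e = true) else ω e) = ω₁ := by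
      funext e
      by_cases he : e ∈ F
      · simp [he]
      · rw [if_neg he, h2 e he]
    rw [this]; exact h1
  · rintro ⟨s, -, h⟩
    exact ⟨_, h, fun e he => by rw [if_neg he]⟩

lemma offE_meas (F : Finset ι) {E : Set (ι → Bool)} (hE : MeasurableSet E) :
    MeasurableSet (offE F E) := by
  classical
  rw [offE_eq]
  refine Finset.measurableSet_biUnion _ fun s _ => ?_
  refine hE.preimage (f := fun (ω : ι → Bool) e => if e ∈ F then decide (e ∈ s) else ω e) ?_
  refine measurable_pi_lambda _ fun e => ?_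
  by_cases he : e ∈ F
  · simp only [if_pos he]; exact measurable_const
  · simp only [if_neg he]; exact measurable_pi_apply e

lemma offE_on (F : Finset ι) (E : Set (ι → Bool)) : On ((F : Set ι)ᶜ) (offE F E) := by
  intro ω ω' h
  constructor
  · rintro ⟨ω₁, h1, h2⟩
    exact ⟨ω₁, h1, fun e he => (h2 e he).trans (h e (by simpa using he))⟩
  · rintro ⟨ω₁, h1, h2⟩
    exact ⟨ω₁, h1, fun e he => (h2 e he).trans (h e (by simpa using he)).symm⟩

/-- all elements of `F` are open -/
def opF (F : Finset ι) : Set (ι → Bool) := {ω | ∀ e ∈ F, ω e = true}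

lemma opF_on (F : Finset ι) : On (F : Set ι) (opF F) := by
  intro ω ω' h
  constructor
  · intro h' e he
    rw [← h e he]; exact h' e he
  · intro h' e he
    rw [h e he]; exact h' e he

lemma opF_pos (p : unitInterval) (hp : 0 < (p : ℝ)) (F : Finset ι) :
    0 < (mu (fun _ : ι => p)).real (opF F) := by
  have h1 : opF F = Set.pi (F : Set ι) (fun _ => {true}) := by
    ext ω; simp [opF, Set.mem_pi]
  have h2 : (mu (fun _ : ι => p)) (opF F) = (bern p {true}) ^ F.card := by
    rw [h1, mu, Measure.infinitePi_pi (μ := fun i : ι => bern p)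
      (fun i _ => MeasurableSet.of_discrete)]
    simp
  have h3 : bern p {true} = ENNReal.ofReal (p : ℝ) := by
    unfold bern
    simp
  rw [measureReal_def, h2, h3, ENNReal.toReal_pow, ENNReal.toReal_ofReal hp.le]
  positivity

/-- finite modification -/
theorem modif (p : unitInterval) (hp : 0 < (p : ℝ)) (F : Finset ι) {E : Set (ι → Bool)}
    (hE : MeasurableSet E) (hpos : 0 < (mu (fun _ : ι => p)).real E) :
    0 < (mu (fun _ : ι => p)).real (opF F ∩ offE F E) := by
  rw [mu_indep (fun _ : ι => p) (F : Set ι) (On.measurableSet (opF_on F)) (offE_meas F hE)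
    (opF_on F) (offE_on F E)]
  refine mul_pos (opF_pos p hp F) (lt_of_lt_of_le hpos (measureReal_mono ?_))
  intro ω hω
  exact ⟨ω, hω, fun _ _ => rfl⟩

end Mod

/-! ### several infinite clusters -/

/-- the points `x i` are in distinct infinite clusters -/
def Dist (κ : Kind) {m : ℕ} (x : Fin m → V d) : Set (El d → Bool) :=
  {ω | (∀ i, {y | (Gr κ ω).Reachable (x i) y}.Infinite) ∧
    ∀ i j, i ≠ j → ¬ (Gr κ ω).Reachable (x i) (x j)}

/-- local approximation -/
def DistA (κ : Kind) {m : ℕ} (x : Fin m → V d) (N n : ℕ) : Set (El d → Bool) :=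
  {ω | (∀ i, ∃ y, y ∉ Bx (0 : V d) (N + n) ∧
      (cut (Gr κ ω) ((Bx (0 : V d) (N + n + 1) : Finset (V d)) : Set (V d))ᶜ).Reachable (x i) y) ∧
    ∀ i j, i ≠ j →
      ¬ (cut (Gr κ ω) ((Bx (0 : V d) (N + n + 1) : Finset (V d)) : Set (V d))ᶜ).Reachable
        (x i) (x j)}

lemma compl_anti {m n : ℕ} (h : m ≤ n) :
    (((Bx (0 : V d) n : Finset (V d)) : Set (V d))ᶜ) ⊆
      (((Bx (0 : V d) m : Finset (V d)) : Set (V d))ᶜ) := by
  intro y hy hy'
  exact hy (Bx_mono h hy')

lemma distA_anti (κ : Kind) {m : ℕ} (x : Fin m → V d) (N : ℕ)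
    (hx : ∀ i, x i ∈ Bx (0 : V d) N) : Antitone (DistA κ x N) := by
  intro a b hab ω hω
  obtain ⟨h1, h2⟩ := hω
  refine ⟨fun i => ?_, fun i j hij h => h2 i j hij ?_⟩
  · obtain ⟨y, hy, hr⟩ := h1 i
    obtain ⟨z, hz1, hz2, hz3⟩ := cross (H := Gr κ ω) (gr_lat κ ω) (c := (0 : V d)) (n := N + a)
      (cut_reach _ hr) (Bx_mono (by omega) (hx i)) (fun h => hy (Bx_mono (by omega) h))
    exact ⟨z, hz1, hz3⟩
  · exact h.mono (cut_anti _ (compl_anti (by omega)))

lemma distA_dep (κ : Kind) {m : ℕ} (x : Fin m → V d) (N n : ℕ) :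
    ∃ Λ : Finset (El d), On (Λ : Set (El d)) (DistA κ x N n) := by
  refine ⟨ins (Bx (0 : V d) (N + n + 1)), ?_⟩
  intro ω ω' h
  unfold DistA
  rw [Set.mem_ofPred_eq, Set.mem_ofPred_eq, cut_congr κ (Bx (0 : V d) (N + n + 1)) h]

lemma dist_eq (κ : Kind) {m : ℕ} (x : Fin m → V d) (N : ℕ)
    (hx : ∀ i, x i ∈ Bx (0 : V d) N) : Dist κ x = ⋂ n, DistA κ x N n := by
  ext ω
  rw [Set.mem_iInter]
  constructor
  · rintro ⟨h1, h2⟩ n
    refine ⟨fun i => ?_, fun i j hij h => h2 i j hij (cut_reach _ h)⟩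
    obtain ⟨y, hy, hy'⟩ := (h1 i).exists_notMem_finset (Bx (0 : V d) (N + n))
    obtain ⟨z, hz1, hz2, hz3⟩ := cross (H := Gr κ ω) (gr_lat κ ω) (c := (0 : V d)) (n := N + n)
      hy (Bx_mono (by omega) (hx i)) hy'
    exact ⟨z, hz1, hz3⟩
  · intro h
    refine ⟨fun i => ?_, fun i j hij hr => ?_⟩
    · apply infinite_of_exits
      intro n
      obtain ⟨y, hy, hy'⟩ := (h n).1 i
      exact ⟨y, fun h => hy (Bx_mono (by omega) h), cut_reach _ hy'⟩
    · obtain ⟨n₀, hn₀⟩ := reach_local hr
      exact (h n₀).2 i j hij (hn₀ _ (by omega))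

lemma exists_common {m : ℕ} (x : Fin m → V d) : ∃ N, ∀ i, x i ∈ Bx (0 : V d) N := by
  choose f hf using fun i => exists_Bx (x i)
  exact ⟨∑ i, f i, fun i => Bx_mono (Finset.single_le_sum (f := f) (fun _ _ => Nat.zero_le _)
    (Finset.mem_univ i)) (hf i)⟩

lemma dist_meas (κ : Kind) {m : ℕ} (x : Fin m → V d) : MeasurableSet (Dist κ x) := by
  obtain ⟨N, hN⟩ := exists_common x
  rw [dist_eq κ x N hN]
  refine MeasurableSet.iInter fun n => ?_
  obtain ⟨Λ, hΛ⟩ := distA_dep κ x N n
  exact hΛ.measurableSet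

/-! ### at most two infinite clusters: trifurcations -/

lemma card_Bx' (c : V d) (m : ℕ) : (Bx c m).card = (2 * m + 1) ^ d := by
  unfold Bx
  rw [Fintype.card_piFinset]
  have : ∀ i : Fin d, (Finset.Icc (c i - (m : ℤ)) (c i + m)).card = 2 * m + 1 := by
    intro i
    rw [Int.card_Icc]
    omega
  simp [this]

/-- the number of vertices of the outer boundary of a box -/
lemma card_shell_le (n : ℕ) :
    (((Bx (0 : V d) (n + 1)) \ Bx (0 : V d) n).card : ℝ) ≤
      2 * d * (2 * n + 3 : ℝ) ^ d / (2 * n + 3) := by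
  have h1 : ((Bx (0 : V d) (n + 1)) \ Bx (0 : V d) n).card =
      (2 * (n + 1) + 1) ^ d - (2 * n + 1) ^ d := by
    rw [Finset.card_sdiff_of_subset (Bx_mono (Nat.le_succ n)), card_Bx', card_Bx']
  rw [h1]
  have h2 : (2 * n + 1) ^ d ≤ (2 * (n + 1) + 1) ^ d := Nat.pow_le_pow_left (by omega) d
  rw [Nat.cast_sub h2]
  push_cast
  have h3 : (0 : ℝ) < 2 * n + 3 := by positivity
  have h4 : (2 * (n : ℝ) + 1) = (2 * n + 3) * (1 + (-(2 / (2 * n + 3)))) := by
    field_simp; ring
  have h5 : (1 : ℝ) + d * (-(2 / (2 * n + 3))) ≤ (1 + (-(2 / (2 * (n : ℝ) + 3)))) ^ d := by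
    apply one_add_mul_le_pow
    have : (2 : ℝ) / (2 * n + 3) ≤ 2 / 1 := by
      apply div_le_div_of_nonneg_left (by norm_num) (by norm_num)
      have : (0 : ℝ) ≤ n := Nat.cast_nonneg n
      linarith
    linarith
  have h6 : (2 * ((n : ℝ) + 1) + 1) = 2 * n + 3 := by ring
  rw [h6]
  have h7 : (2 * (n : ℝ) + 3) ^ d * (1 + d * (-(2 / (2 * n + 3)))) ≤ (2 * (n : ℝ) + 1) ^ d := by
    rw [h4, mul_pow]
    exact mul_le_mul_of_nonneg_left h5 (by positivity)
  have h8 : 2 * (d : ℝ) * (2 * n + 3 : ℝ) ^ d / (2 * n + 3) =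
      (2 * (n : ℝ) + 3) ^ d - (2 * (n : ℝ) + 3) ^ d * (1 + d * (-(2 / (2 * n + 3)))) := by
    field_simp; ring
  rw [h8]
  linarith

/-- deterministic bound: number of trifurcation boxes on the grid of step `2R+1` -/
lemma tri_boxes (κ : Kind) (ω : El d → Bool) (R m : ℕ) (Z : Finset (V d))
    (hZ : ∀ z ∈ Z, ∀ i, 0 ≤ z i ∧ z i < m)
    (htri : ∀ z ∈ Z, IsTri (Gr κ ω)
      ((Bx (((2 * R + 1 : ℕ) : ℤ) • z) R : Finset (V d)) : Set (V d))) :
    Z.card ≤ ((Bx (0 : V d) ((2 * R + 1) * m + 1)) \ Bx (0 : V d) ((2 * R + 1) * m)).card := by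
  refine tri_count (Gr κ ω) Z (fun z => ((Bx (((2 * R + 1 : ℕ) : ℤ) • z) R : Finset (V d)) :
    Set (V d))) _ htri ?_ ?_
  · intro j _ k _ hjk
    rw [Set.disjoint_left]
    intro y hy1 hy2
    apply hjk
    funext i
    have h1 := (mem_Bx.1 (Finset.mem_coe.1 hy1)) i
    have h2 := (mem_Bx.1 (Finset.mem_coe.1 hy2)) i
    simp only [Pi.smul_apply, smul_eq_mul] at h1 h2
    rw [abs_le] at h1 h2
    push_cast at h1 h2
    by_contra hne
    rcases lt_or_gt_of_ne hne with h | h
    · have h3 : (2 * (R : ℤ) + 1) * (j i + 1) ≤ (2 * R + 1) * k i :=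
        mul_le_mul_of_nonneg_left (by omega) (by positivity)
      nlinarith [h1.1, h1.2, h2.1, h2.2]
    · have h3 : (2 * (R : ℤ) + 1) * (k i + 1) ≤ (2 * R + 1) * j i :=
        mul_le_mul_of_nonneg_left (by omega) (by positivity)
      nlinarith [h1.1, h1.2, h2.1, h2.2]
  · rintro z hz u hu ⟨b, hb, hadj⟩ hinf
    have hbn : b ∈ Bx (0 : V d) ((2 * R + 1) * m) := by
      rw [mem_Bx]
      intro i
      have h1 := (mem_Bx.1 (Finset.mem_coe.1 hb)) i
      simp only [Pi.smul_apply, smul_eq_mul] at h1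
      rw [abs_le] at h1 ⊢
      push_cast at h1 ⊢
      obtain ⟨h2, h3⟩ := hZ z hz i
      have h4 : (2 * (R : ℤ) + 1) * (z i + 1) ≤ (2 * R + 1) * m :=
        mul_le_mul_of_nonneg_left (by omega) (by positivity)
      have h5 : 0 ≤ (2 * (R : ℤ) + 1) * z i := by positivity
      have h6 : (0 : ℤ) ≤ (2 * R + 1) * m := by positivity
      have h7 : (2 * (R : ℤ) + 1) * 1 ≤ (2 * R + 1) * m :=
        mul_le_mul_of_nonneg_left (by omega) (by positivity)
      simp only [Pi.zero_apply, sub_zero]
      constructor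
      · linarith
      · linarith
    have hu1 : u ∈ Bx (0 : V d) ((2 * R + 1) * m + 1) :=
      Bx_succ_of_adj hbn (LatAdj.symm (gr_lat κ ω _ _ hadj))
    by_cases hu2 : u ∈ Bx (0 : V d) ((2 * R + 1) * m)
    · obtain ⟨y, hy1, hy2⟩ := hinf.exists_notMem_finset (Bx (0 : V d) ((2 * R + 1) * m))
      obtain ⟨z', hz1, hz2, hz3⟩ := cross
        (H := cut (Gr κ ω) ((Bx (((2 * R + 1 : ℕ) : ℤ) • z) R : Finset (V d)) : Set (V d)))
        (fun a b h => gr_lat κ ω a b h.1) (c := (0 : V d)) hy1 hu2 hy2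
      exact ⟨z', Finset.mem_sdiff.2 ⟨hz2, hz1⟩, cut_reach _ hz3⟩
    · exact ⟨u, Finset.mem_sdiff.2 ⟨hu1, hu2⟩, SimpleGraph.Reachable.refl _⟩

/-- there are no three infinite clusters -/
theorem no_three (κ : Kind) (hd : 1 ≤ d) (p : unitInterval) (hp : 0 < (p : ℝ))
    (x : Fin 3 → V d) : (mu (fun _ : El d => p)).real (Dist κ x) = 0 := by
  classical
  by_contra hne
  have hpos : 0 < (mu (fun _ : El d => p)).real (Dist κ x) :=
    lt_of_le_of_ne measureReal_nonneg (Ne.symm hne)
  obtain ⟨R, hR⟩ := exists_common x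
  set F := ins (Bx (0 : V d) R) with hF
  set T := opF F ∩ offE F (Dist κ x) with hT
  have hTpos : 0 < (mu (fun _ : El d => p)).real T := modif p hp F (dist_meas κ x) hpos
  have hTm : MeasurableSet T :=
    (On.measurableSet (opF_on F)).inter (offE_meas F (dist_meas κ x))
  have hTtri : ∀ ω ∈ T, IsTri (Gr κ ω) ((Bx (0 : V d) R : Finset (V d)) : Set (V d)) := by
    rintro ω ⟨h1, ω₁, h2, h3⟩
    exact tri_of_three κ x hR h2.1 h2.2 h3 h1
  set c := (mu (fun _ : El d => p)).real T with hc
  -- translates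
  let sh : V d → El d → El d := fun v e => e.map (fun x => x + v)
  have hinj : ∀ v, Function.Injective (sh v) := by
    intro v
    apply Sym2.map.injective
    intro a b hab
    simpa using hab
  let Tv : V d → Set (El d → Bool) := fun v => {ω | (fun e => ω (sh v e)) ∈ T}
  have hTvm : ∀ v, MeasurableSet (Tv v) := fun v => hTm.preimage (mu_measurable_comp (sh v))
  have hTv : ∀ v, (mu (fun _ : El d => p)).real (Tv v) = c := by
    intro v
    have h := mu_comp (fun _ : El d => p) (sh v) (hinj v)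
    rw [hc, measureReal_def, measureReal_def]
    conv_rhs => rw [← h]
    rw [Measure.map_apply (mu_measurable_comp (sh v)) hTm]
    rfl
  -- the inequality
  have hineq : ∀ m : ℕ, c * (m : ℝ) ^ d ≤
      (((Bx (0 : V d) ((2 * R + 1) * m + 1)) \ Bx (0 : V d) ((2 * R + 1) * m)).card : ℝ) := by
    intro m
    let Z : Finset (V d) := Fintype.piFinset fun _ => Finset.Ico (0 : ℤ) m
    have hZc : Z.card = m ^ d := by
      simp [Z]
    let X : (El d → Bool) → ℝ := fun ω => ∑ z ∈ Z,
      (Tv (((2 * R + 1 : ℕ) : ℤ) • z)).indicator (fun _ => (1 : ℝ)) ω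
    have hX : ∀ ω, X ω ≤
        (((Bx (0 : V d) ((2 * R + 1) * m + 1)) \ Bx (0 : V d) ((2 * R + 1) * m)).card : ℝ) := by
      intro ω
      have h1 : X ω = ((Z.filter fun z => ω ∈ Tv (((2 * R + 1 : ℕ) : ℤ) • z)).card : ℝ) := by
        simp only [X, Set.indicator_apply]
        rw [Finset.sum_ite]
        simp
      rw [h1]
      exact_mod_cast tri_boxes κ ω R m _ (by
        intro z hz i
        rw [Finset.mem_filter] at hz
        have := (Fintype.mem_piFinset.1 hz.1) i
        rw [Finset.mem_Ico] at this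
        exact this) (by
        intro z hz
        rw [Finset.mem_filter] at hz
        exact tri_shift κ _ ω R (hTtri _ hz.2))
    have hint : ∫ ω, X ω ∂(mu (fun _ : El d => p)) = c * (m : ℝ) ^ d := by
      simp only [X]
      rw [integral_finsetSum]
      · have : ∀ z ∈ Z, ∫ ω, (Tv (((2 * R + 1 : ℕ) : ℤ) • z)).indicator (fun _ => (1 : ℝ)) ω
            ∂(mu (fun _ : El d => p)) = c := by
          intro z _
          rw [integral_indicator_const _ (hTvm _), hTv]
          simp
        rw [Finset.sum_congr rfl this, Finset.sum_const, hZc]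
        rw [nsmul_eq_mul]; push_cast; ring
      · intro z _
        exact (integrable_const (1 : ℝ)).indicator (hTvm _)
    have hXint : Integrable X (mu (fun _ : El d => p)) := by
      simp only [X]
      exact integrable_finsetSum _ fun z _ => (integrable_const (1 : ℝ)).indicator (hTvm _)
    rw [← hint]
    calc ∫ ω, X ω ∂(mu (fun _ : El d => p)) ≤ ∫ _ω, (((Bx (0 : V d) ((2 * R + 1) * m + 1)) \
          Bx (0 : V d) ((2 * R + 1) * m)).card : ℝ) ∂(mu (fun _ : El d => p)) :=
          integral_mono hXint (integrable_const _) hX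
      _ = _ := by simp
  -- contradiction for large `m`
  have hbound : ∀ m : ℕ, 1 ≤ m → c * m ≤ 2 * d * (4 * R + 5 : ℝ) ^ d := by
    intro m hm
    have hm' : (1 : ℝ) ≤ m := by exact_mod_cast hm
    have h1 := (hineq m).trans (card_shell_le ((2 * R + 1) * m))
    push_cast at h1
    have hR0 : (0 : ℝ) ≤ R := Nat.cast_nonneg R
    have h2 : (m : ℝ) ≤ 2 * ((2 * R + 1) * m) + 3 := by nlinarith
    have h3 : 2 * ((2 * R + 1) * m) + 3 ≤ (4 * R + 5 : ℝ) * m := by nlinarith
    have h4 : (0 : ℝ) < 2 * ((2 * R + 1) * m) + 3 := by positivity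
    rw [le_div_iff₀ h4] at h1
    have h5 : (2 * ((2 * R + 1) * m) + 3 : ℝ) ^ d ≤ (4 * R + 5 : ℝ) ^ d * (m : ℝ) ^ d := by
      rw [← mul_pow]
      exact pow_le_pow_left₀ h4.le h3 d
    have h6 : c * (m : ℝ) ^ d * m ≤ 2 * d * (4 * R + 5 : ℝ) ^ d * (m : ℝ) ^ d := by
      calc c * (m : ℝ) ^ d * m ≤ c * (m : ℝ) ^ d * (2 * ((2 * R + 1) * m) + 3) :=
            mul_le_mul_of_nonneg_left h2 (by positivity)
        _ ≤ 2 * d * (2 * ((2 * R + 1) * m) + 3 : ℝ) ^ d := h1
        _ ≤ 2 * d * ((4 * R + 5 : ℝ) ^ d * (m : ℝ) ^ d) :=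
            mul_le_mul_of_nonneg_left h5 (by positivity)
        _ = _ := by ring
    have h7 : (0 : ℝ) < (m : ℝ) ^ d := by positivity
    have h8 : (c * m) * (m : ℝ) ^ d ≤ (2 * d * (4 * R + 5 : ℝ) ^ d) * (m : ℝ) ^ d := by
      linarith
    exact le_of_mul_le_mul_right h8 h7
  obtain ⟨m, hm⟩ := exists_nat_gt (2 * d * (4 * R + 5 : ℝ) ^ d / c)
  have h1 := hbound (m + 1) (by omega)
  rw [div_lt_iff₀ hTpos] at hm
  push_cast at h1
  nlinarith

/-! ### exactly two infinite clusters -/

/-- if two infinite clusters have positive probability then almost surely there are two -/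
theorem two_ae (κ : Kind) (hd : 1 ≤ d) (p : unitInterval) (x : Fin 2 → V d)
    (hpos : 0 < (mu (fun _ : El d => p)).real (Dist κ x)) :
    ∀ᵐ ω ∂(mu (fun _ : El d => p)), ∃ a b : V d, {y | (Gr κ ω).Reachable a y}.Infinite ∧
      {y | (Gr κ ω).Reachable b y}.Infinite ∧ ¬ (Gr κ ω).Reachable a b := by
  classical
  set i₀ : Fin d := ⟨0, hd⟩ with hi₀
  set vk : ℕ → V d := fun k => Pi.single i₀ (k : ℤ) with hvk
  set sh : ℕ → El d → El d := fun k e => e.map (fun x => x + vk k) with hsh
  have hinj : ∀ k, Function.Injective (sh k) := by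
    intro k
    apply Sym2.map.injective
    intro a b hab
    simpa using hab
  have hfar : ∀ Λ : Finset (El d), ∃ M : ℕ, 1 ≤ M ∧ ∀ k l : ℕ, k ≠ l → ∀ i ∈ Λ, ∀ j ∈ Λ,
      sh (M * k) i ≠ sh (M * l) j := by
    intro Λ
    obtain ⟨B, hB⟩ := SeedInf_bound i₀ Λ
    refine ⟨2 * B + 1, by omega, ?_⟩
    intro k l hkl i hi j hj heq
    obtain ⟨a, ha⟩ : ∃ a, a ∈ i := by
      induction i using Sym2.ind with
      | _ a b => exact ⟨a, Sym2.mem_mk_left _ _⟩
    have h1 : a + vk ((2 * B + 1) * k) ∈ sh ((2 * B + 1) * l) j := by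
      rw [← heq]
      exact Sym2.mem_map.2 ⟨a, ha, rfl⟩
    obtain ⟨b, hb, hab⟩ := Sym2.mem_map.1 h1
    have h2 := congrFun hab i₀
    simp only [hvk, Pi.add_apply, Pi.single_eq_same] at h2
    have h3 := abs_le.1 (hB i hi a ha)
    have h4 := abs_le.1 (hB j hj b hb)
    push_cast at h2
    have h5 : (2 * (B : ℤ) + 1) * ((k : ℤ) - l) = b i₀ - a i₀ := by linarith
    rcases Nat.lt_or_gt_of_ne hkl with h | h
    · have h6 : (k : ℤ) - l ≤ -1 := by
        have : (k : ℤ) + 1 ≤ l := by exact_mod_cast h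
        linarith
      have h7 : (2 * (B : ℤ) + 1) * ((k : ℤ) - l) ≤ (2 * (B : ℤ) + 1) * (-1) :=
        mul_le_mul_of_nonneg_left h6 (by positivity)
      linarith [h3.1, h3.2, h4.1, h4.2]
    · have h6 : 1 ≤ (k : ℤ) - l := by
        have : (l : ℤ) + 1 ≤ k := by exact_mod_cast h
        linarith
      have h7 : (2 * (B : ℤ) + 1) * 1 ≤ (2 * (B : ℤ) + 1) * ((k : ℤ) - l) :=
        mul_le_mul_of_nonneg_left h6 (by positivity)
      linarith [h3.1, h3.2, h4.1, h4.2]
  obtain ⟨N, hN⟩ := exists_common x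
  have hpos' : 0 < (mu (fun _ : El d => p)).real (⋂ n, DistA κ x N n) := by
    rw [← dist_eq κ x N hN]; exact hpos
  have h := erg (fun _ : El d => p) sh hinj (fun _ _ => rfl) hfar (DistA κ x N)
    (distA_anti κ x N hN) (distA_dep κ x N) hpos'
  filter_upwards [h] with ω hω
  obtain ⟨k, hk⟩ := hω
  have hk' : (fun i => ω (sh k i)) ∈ Dist κ x := by
    rw [dist_eq κ x N hN, Set.mem_iInter]; exact hk
  obtain ⟨h1, h2⟩ := hk'
  have hinj' : Function.Injective (fun x : V d => x + vk k) := fun a b hab => by simpa using hab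
  have hcut0 : ∀ G : SimpleGraph (V d), cut G (∅ : Set (V d)) = G := by
    intro G; ext a b; simp [cut]
  have hempty : {y : V d | y - vk k ∈ (∅ : Set (V d))} = ∅ := by ext y; simp
  have hfwd : ∀ a b, (Gr κ (fun e : El d => ω (e.map (fun x => x + vk k)))).Reachable a b →
      (Gr κ ω).Reachable (a + vk k) (b + vk k) := by
    intro a b hab
    have := gr_shift_reach κ (vk k) ω ∅ (a := a) (b := b) (by rw [hcut0]; exact hab)
    rwa [hempty, hcut0] at this
  have hbwd : ∀ a b, (Gr κ ω).Reachable (a + vk k) (b + vk k) →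
      (Gr κ (fun e : El d => ω (e.map (fun x => x + vk k)))).Reachable a b := by
    intro a b hab
    have := gr_shift_reach' κ (vk k) ω ∅ (a := a + vk k) (b := b + vk k)
      (by rw [hempty, hcut0]; exact hab)
    rwa [hcut0, add_sub_cancel_right, add_sub_cancel_right] at this
  have hinfi : ∀ i, {y | (Gr κ ω).Reachable (x i + vk k) y}.Infinite := by
    intro i
    refine ((h1 i).image (f := fun x : V d => x + vk k) hinj'.injOn).mono ?_
    rintro _ ⟨y, hy, rfl⟩
    exact hfwd _ _ hy
  exact ⟨x 0 + vk k, x 1 + vk k, hinfi 0, hinfi 1,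
    fun h => h2 0 1 (by decide) (hbwd _ _ h)⟩

theorem no_two (κ : Kind) (hd : 1 ≤ d) (p : unitInterval) (hp : 0 < (p : ℝ))
    (x : Fin 2 → V d) : (mu (fun _ : El d => p)).real (Dist κ x) = 0 := by
  classical
  by_contra hne
  have hpos : 0 < (mu (fun _ : El d => p)).real (Dist κ x) :=
    lt_of_le_of_ne measureReal_nonneg (Ne.symm hne)
  have h2 := two_ae κ hd p x hpos
  -- no three infinite clusters, almost surely
  have h3 : ∀ᵐ ω ∂(mu (fun _ : El d => p)), ∀ y : Fin 3 → V d, ω ∉ Dist κ y := by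
    rw [ae_all_iff]
    intro y
    have h0 := no_three κ hd p hp y
    rw [measureReal_eq_zero_iff] at h0
    exact measure_eq_zero_iff_ae_notMem.1 h0
  -- the good set
  set E := Dist κ x ∩ ⋂ y : Fin 3 → V d, (Dist κ y)ᶜ with hE
  have hEm : MeasurableSet E :=
    (dist_meas κ x).inter (MeasurableSet.iInter fun y => (dist_meas κ y).compl)
  have hEpos : 0 < (mu (fun _ : El d => p)).real E := by
    have : (mu (fun _ : El d => p)).real E = (mu (fun _ : El d => p)).real (Dist κ x) := by
      apply measureReal_congr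
      filter_upwards [h3] with ω hω
      have : ω ∈ ⋂ y : Fin 3 → V d, (Dist κ y)ᶜ := by
        rw [Set.mem_iInter]; exact hω
      show (ω ∈ E) = (ω ∈ Dist κ x)
      exact propext ⟨fun h => h.1, fun h => ⟨h, this⟩⟩
    rw [this]; exact hpos
  obtain ⟨R, hR⟩ := exists_common x
  set F := ins (Bx (0 : V d) R) with hF
  have hT : 0 < (mu (fun _ : El d => p)).real (opF F ∩ offE F E) := modif p hp F hEm hEpos
  -- on this event any two infinite clusters coincide
  have hU : ∀ ω ∈ opF F ∩ offE F E, ∀ a b : V d, {y | (Gr κ ω).Reachable a y}.Infinite →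
      {y | (Gr κ ω).Reachable b y}.Infinite → (Gr κ ω).Reachable a b := by
    rintro ω ⟨ho, ω₁, ⟨⟨hi1, hi2⟩, h3'⟩, hoff⟩
    have hle : Gr κ ω₁ ≤ Gr κ ω := by
      apply gr_mono
      intro e he
      by_cases h : e ∈ F
      · exact ho e h
      · rw [← hoff e h]; exact he
    have hcut : cut (Gr κ ω₁) ((Bx (0 : V d) R : Finset (V d)) : Set (V d)) =
      cut (Gr κ ω) ((Bx (0 : V d) R : Finset (V d)) : Set (V d)) := cut_open κ _ hoff
    have hbox : ∀ u ∈ Bx (0 : V d) R, ∀ v ∈ Bx (0 : V d) R, (Gr κ ω).Reachable u v :=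
      fun u hu v hv => cut_reach _ (box_conn κ ho hu hv)
    have claim : ∀ a : V d, {y | (Gr κ ω).Reachable a y}.Infinite →
        (Gr κ ω).Reachable a (x 0) := by
      intro a ha
      by_cases haB : ∃ b ∈ Bx (0 : V d) R, (Gr κ ω).Reachable a b
      · obtain ⟨b, hb, hab⟩ := haB
        exact hab.trans (hbox b hb _ (hR 0))
      · push Not at haB
        -- the cluster of `a` avoids the box, so it is also a cluster of `ω₁`
        have hsame : ∀ y, (Gr κ ω).Reachable a y → (Gr κ ω₁).Reachable a y := by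
          intro y hy
          have hgen : ∀ z, (Gr κ ω).Reachable z y → (Gr κ ω).Reachable a z →
              (Gr κ ω₁).Reachable z y := by
            intro z hz
            refine reach_induction (P := fun z => (Gr κ ω).Reachable a z →
              (Gr κ ω₁).Reachable z y) ?_ ?_ hz
            · intro _; exact SimpleGraph.Reachable.refl _
            · intro z z' hzz' _ ih haz
              have haz' : (Gr κ ω).Reachable a z' := haz.trans hzz'.reachable
              have h1 : (cut (Gr κ ω) ((Bx (0 : V d) R : Finset (V d)) : Set (V d))).Adj z z' :=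
                ⟨hzz', fun h => haB z h haz, fun h => haB z' h haz'⟩
              rw [← hcut] at h1
              have h2 : (Gr κ ω₁).Adj z z' := h1.1
              exact h2.reachable.trans (ih haz')
          exact hgen a hy (SimpleGraph.Reachable.refl _)
        have hainf : {y | (Gr κ ω₁).Reachable a y}.Infinite := ha.mono fun y hy => hsame y hy
        have hax : ∀ i, ¬ (Gr κ ω₁).Reachable a (x i) := fun i h =>
          haB (x i) (hR i) (h.mono hle)
        exfalso
        rw [Set.mem_iInter] at h3'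
        apply h3' ![a, x 0, x 1]
        refine ⟨?_, ?_⟩
        · intro i
          fin_cases i
          · exact hainf
          · exact hi1 0
          · exact hi1 1
        · have h01 := hi2 0 1 (by decide)
          intro i j hij
          fin_cases i <;> fin_cases j
          · exact absurd rfl hij
          · exact hax 0
          · exact hax 1
          · exact fun h => hax 0 h.symm
          · exact absurd rfl hij
          · exact h01
          · exact fun h => hax 1 h.symm
          · exact fun h => h01 h.symm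
          · exact absurd rfl hij
    intro a b ha hb
    exact (claim a ha).trans (claim b hb).symm
  -- contradiction with `h2`
  have hnull : (mu (fun _ : El d => p)) (opF F ∩ offE F E) = 0 := by
    refine measure_mono_null ?_ (ae_iff.1 h2)
    intro ω hω
    rw [Set.mem_ofPred_eq]
    rintro ⟨a, b, ha, hb, hab⟩
    exact hab (hU ω hω a b ha hb)
  rw [measureReal_def, hnull] at hT
  simp at hT

/-- Burton-Keane -/
theorem uniq (κ : Kind) (d : ℕ) (p : unitInterval) :
    ∀ᵐ ω ∂(prodBern (El d) p), ∀ x y : V d,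
      {z | (Gr κ ω).Reachable x z}.Infinite → {z | (Gr κ ω).Reachable y z}.Infinite →
      (Gr κ ω).Reachable x y := by
  rcases Nat.eq_zero_or_pos d with rfl | hd
  · refine Filter.Eventually.of_forall fun ω x y _ _ => ?_
    rw [Subsingleton.elim x y]
  rcases eq_or_lt_of_le p.2.1 with hp | hp
  · -- `p = 0`: all elements are closed
    have hall : ∀ᵐ ω ∂(prodBern (El d) p), ∀ e : El d, ω e = false := by
      rw [ae_all_iff]
      intro e
      have hm : (prodBern (El d) p).map (fun ω => ω e) = bern p := by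
        unfold prodBern
        exact (measurePreserving_eval_infinitePi (μ := fun _ : El d => bern p) e).map_eq
      have h0 : (prodBern (El d) p) {ω | ω e = true} = 0 := by
        have h1 : (prodBern (El d) p) {ω | ω e = true} =
            ((prodBern (El d) p).map (fun ω => ω e)) {true} := by
          rw [Measure.map_apply (measurable_pi_apply e) (measurableSet_singleton _)]
          rfl
        rw [h1, hm]
        unfold bern
        simp [← hp]
      have h2 : ∀ᵐ ω ∂(prodBern (El d) p), ω ∉ {ω : El d → Bool | ω e = true} :=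
        measure_eq_zero_iff_ae_notMem.1 h0
      filter_upwards [h2] with ω hω
      simpa using hω
    filter_upwards [hall] with ω hω
    intro x y hx _
    exfalso
    apply hx
    refine (Set.finite_singleton x).subset ?_
    rintro z ⟨w⟩
    cases w with
    | nil => rfl
    | cons hadj _ =>
      exfalso
      obtain ⟨-, ho⟩ := hadj
      cases κ with
      | bond =>
        have ho' : ω s(x, _) = true := ho
        rw [hω] at ho'
        exact Bool.false_ne_true ho'
      | site =>
        have ho' : ω s(x, x) = true := ho.1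
        rw [hω] at ho'
        exact Bool.false_ne_true ho'
  · have h : ∀ᵐ ω ∂(mu (fun _ : El d => p)), ∀ x : Fin 2 → V d, ω ∉ Dist κ x := by
      rw [ae_all_iff]
      intro x
      have h0 := no_two κ hd p hp x
      rw [measureReal_eq_zero_iff] at h0
      exact measure_eq_zero_iff_ae_notMem.1 h0
    rw [mu_const] at h
    filter_upwards [h] with ω hω
    intro x y hx hy
    by_contra hxy
    apply hω ![x, y]
    refine ⟨?_, ?_⟩
    · intro i
      fin_cases i
      · exact hx
      · exact hy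
    · intro i j hij
      fin_cases i <;> fin_cases j
      · exact absurd rfl hij
      · exact hxy
      · exact fun h => hxy h.symm
      · exact absurd rfl hij

end Pool.Agent.H75.BK
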